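import Pool.Agent.V7H27.AK.Alg

/-!
# The arithmetic Kakeya conjecture for all subsets of algebraic sets of bounded degree

We consider finite sets `A` of pairs `(x, y)`, `x, y ∈ ℤ^n`, in all dimensions `n`, and their projections
`Π_r(A) = {x + r y} ⊂ ℚ^n`, `r ∈ ℚ`. With an injective linear code `ℤ^n → ℤ` they are sets in `ℤ × ℤ` with
projections of the same sizes. We prove the inequality of the conjecture for ARBITRARY subsets of
algebraic sets of bounded degree on which the difference `x - y`, the projection with slope `-1`, is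
an immersion. The simplest case are the graphs over the differences: with `d = x - y`, each `y_j` is a
polynomial `f_j(d)` of bounded degree with rational coefficients, or a zero of a polynomial `g_j(d, ·)`.
The sets `{(X(u), Y(u))}`, where `X, Y : ℚ^N → ℚ^n` are polynomial maps and `u` runs through an arbitrary
subset of a grid, are another case.

In general a chart with `N` parameters and `B` digits on `A` assigns to the points of `A` parameters
`u ∈ ℚ^N` such that each `u_i` takes at most `B` values on `A`, and auxiliary coordinates `v ∈ ℚ^M`. The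
charts are of one of the following kinds:

* `AlgebraicChart`: `x - y = D(u)` and `y = Y(u, v)` with polynomials `D_l`, `Y_l` of total degree at most
  `h`, the derivative of `D` at `u` is injective, and each `v_j` is a zero of a polynomial `g_j(u, ·)` which
  is not identically `0`, where `g_j` has total degree at most `k`;
* `ImplicitChart`: `x = X(u, v)` and `y = Y(u, v)` with polynomials `X_l`, `Y_l` of total degree at most
  `h`, and `(u, v)` satisfies equations `G_1 = … = G_M = 0` of total degree at most `k` such that a tangent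
  vector `w` (that is, `dG_j(w) = 0` for all `j`) is `0` if its first `N` coordinates vanish, and also
  if `dX_l(w) = dY_l(w)` for all `l`.

For a union `A` of `m` sets with such charts and a finite set `S` of `s ≥ 1` slopes different from `-1` we
prove, with `L = m h ^ N k ^ (2 M)`,

* `|A| ≤ L (9 s ^ 2 B) ^ (N / s) (∏_{r ∈ S} |Π_r(A)|) ^ (1 / s)`;
* `|A| ≤ s 4 ^ N L B ^ ⌊N / s⌋ max_{r ∈ S} |Π_r(A)|`.

So for a fixed number `N` of parameters, any `N + 1` slopes give a linear bound, without a condition on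
the digits. In all dimensions, for each `ε > 0` there is `s₀` such that
`|A| ≤ L B ^ (ε N) (∏_{r ∈ S} |Π_r(A)|) ^ (1 / s)` for all `S` with `s ≥ s₀` and all `B ≥ 2`. If moreover
`|A| ≥ B ^ (c N)` and `L ≤ B ^ (κ N)`, then `|A|` is bounded by the geometric mean to the power
`c / (c - κ) + ε`, and so the inequality of the conjecture, with the exponent `1 + ε`, holds if `L` is at most
`B ^ (δ N)`, for example for all subsets of linear images of grids. The factor `B ^ (N / s)` is needed, already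
for linear maps.

Idea of the proof. By a generic projection we may suppose that `n = N`. Let `T` be the tangent space at a
point. As `d(x - y)` is injective on `T`, the kernels of `d(x + r y)`, `r ∈ S`, on `T` are eigenspaces of
a linear map for different eigenvalues, and so the sum of their dimensions `m_r` is at most `N`. For each
`r` some `N` of the `2 N` equations `x_i + r y_i = z_i`, `u_i = c_i`, at most `m_r` of the second kind, make
`(u, v)` a nondegenerate solution of a system of `N + M` polynomial equations in `N + M` variables. A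
theorem of Bezout's type (proved in `Bez`) shows that there are at most `h ^ N k ^ M` solutions. We count the
points of the fibres of `Π_r` with the weights `B ^ (-m_r)` (up to small factors, see `Wt`) and
combine the results for all `r ∈ S` by the inequality of Hölder.
-/

set_option autoImplicit false

namespace Pool.Agent.Results.MP_169869_co.AlgebraicGraphsH27

open Finset MvPolynomial

/-- `π_r(A) = {x + r y}` for `A ⊂ ℤ × ℤ` -/
def proj (r : ℚ) (A : Finset (ℤ × ℤ)) : Finset ℚ := A.image fun p => (p.1 : ℚ) + r * (p.2 : ℚ)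

/-- `Π_r(A) = {x + r y}` for `A ⊂ ℤ^n × ℤ^n` -/
def projn {n : ℕ} (r : ℚ) (A : Finset ((Fin n → ℤ) × (Fin n → ℤ))) : Finset (Fin n → ℚ) :=
  A.image fun p i => (p.1 i : ℚ) + r * (p.2 i : ℚ)

/-- the largest size of a projection with slope in `S` -/
def big {n : ℕ} (S : Finset ℚ) (A : Finset ((Fin n → ℤ) × (Fin n → ℤ))) : ℕ :=
  S.sup fun r => #(projn r A)

/-- the geometric mean of the sizes of the projections with slopes in `S` -/
noncomputable def gm {n : ℕ} (S : Finset ℚ) (A : Finset ((Fin n → ℤ) × (Fin n → ℤ))) : ℝ :=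
  (∏ r ∈ S, (#(projn r A) : ℝ)) ^ (1 / (#S : ℝ))

/-- the derivative `df_z(w)` of the polynomial `f` at `z` in the direction `w` -/
noncomputable def dir {σ : Type} [Fintype σ] (f : MvPolynomial σ ℚ) (z w : σ → ℚ) : ℚ :=
  ∑ i, eval z (pderiv i f) * w i

/-- each parameter `u_i` takes at most `B` values; `x - y = D(u)`, `y = Y(u, v)`, the derivative
of `D` is injective at `u`, and `v_j` is a zero of `g_j(u, ·)`, which is not identically `0`; the total
degrees are at most `h` for the `D_l` and `Y_l`, and at most `k` for the `g_j` -/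
def AlgebraicChart {n : ℕ} (N M h k B : ℕ) (A : Finset ((Fin n → ℤ) × (Fin n → ℤ))) : Prop :=
  ∃ (g : Fin M → MvPolynomial (Fin N ⊕ Unit) ℚ) (D : Fin n → MvPolynomial (Fin N) ℚ)
    (Y : Fin n → MvPolynomial (Fin N ⊕ Fin M) ℚ)
    (u : (Fin n → ℤ) × (Fin n → ℤ) → Fin N → ℚ) (v : (Fin n → ℤ) × (Fin n → ℤ) → Fin M → ℚ),
    (∀ j, (g j).totalDegree ≤ k) ∧ (∀ l, (D l).totalDegree ≤ h) ∧ (∀ l, (Y l).totalDegree ≤ h) ∧
    (∀ i, #(A.image fun p => u p i) ≤ B) ∧
    ∀ p ∈ A, (∀ l, (p.1 l : ℚ) - (p.2 l : ℚ) = eval (u p) (D l)) ∧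
      (∀ l, (p.2 l : ℚ) = eval (Sum.elim (u p) (v p)) (Y l)) ∧
      (∀ j, eval (Sum.elim (u p) fun _ => v p j) (g j) = 0 ∧
        ∃ c : ℚ, eval (Sum.elim (u p) fun _ => c) (g j) ≠ 0) ∧
      ∀ a : Fin N → ℚ, (∀ l, dir (D l) (u p) a = 0) → a = 0

/-- each parameter `u_i` takes at most `B` values; `x = X(u, v)`, `y = Y(u, v)`, `G_j(u, v) = 0`, and
a tangent vector `w` is `0` if its first `N` coordinates vanish, and also if `dX_l(w) = dY_l(w)`
for all `l`; the total degrees are at most `h` for the `X_l` and `Y_l`, and at most `k` for the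
`G_j` -/
def ImplicitChart {n : ℕ} (N M h k B : ℕ) (A : Finset ((Fin n → ℤ) × (Fin n → ℤ))) : Prop :=
  ∃ (G : Fin M → MvPolynomial (Fin N ⊕ Fin M) ℚ) (X Y : Fin n → MvPolynomial (Fin N ⊕ Fin M) ℚ)
    (u : (Fin n → ℤ) × (Fin n → ℤ) → Fin N → ℚ) (v : (Fin n → ℤ) × (Fin n → ℤ) → Fin M → ℚ),
    (∀ j, (G j).totalDegree ≤ k) ∧ (∀ l, (X l).totalDegree ≤ h) ∧ (∀ l, (Y l).totalDegree ≤ h) ∧
    (∀ i, #(A.image fun p => u p i) ≤ B) ∧
    ∀ p ∈ A, (∀ l, (p.1 l : ℚ) = eval (Sum.elim (u p) (v p)) (X l)) ∧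
      (∀ l, (p.2 l : ℚ) = eval (Sum.elim (u p) (v p)) (Y l)) ∧
      (∀ j, eval (Sum.elim (u p) (v p)) (G j) = 0) ∧
      ∀ w : Fin N ⊕ Fin M → ℚ, (∀ j, dir (G j) (Sum.elim (u p) (v p)) w = 0) →
        ((∀ i, w (Sum.inl i) = 0) ∨
          ∀ l, dir (X l) (Sum.elim (u p) (v p)) w = dir (Y l) (Sum.elim (u p) (v p)) w) → w = 0

/-- `A` is covered by `m` sets which have charts -/
def Covered {n : ℕ} (N M m h k B : ℕ) (A : Finset ((Fin n → ℤ) × (Fin n → ℤ))) : Prop :=
  ∃ P : Fin m → Finset ((Fin n → ℤ) × (Fin n → ℤ)),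
    (∀ l, AlgebraicChart N M h k B (P l) ∨ ImplicitChart N M h k B (P l)) ∧ ∀ p ∈ A, ∃ l, p ∈ P l

/-- the subset of `ℤ × ℤ` with the weights `w` -/
def flat {n : ℕ} (w : Fin n → ℤ) (A : Finset ((Fin n → ℤ) × (Fin n → ℤ))) : Finset (ℤ × ℤ) :=
  A.image fun p => (∑ i, w i * p.1 i, ∑ i, w i * p.2 i)

/-- `v ↦ ∑ w_i v_i` is injective on `Π_r(A)` for `r ∈ S` -/
def Sep {n : ℕ} (w : Fin n → ℤ) (S : Finset ℚ) (A : Finset ((Fin n → ℤ) × (Fin n → ℤ))) : Prop :=
  ∀ r ∈ S, Set.InjOn (fun v : Fin n → ℚ => ∑ i, (w i : ℚ) * v i) (projn r A : Set (Fin n → ℚ))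

/-! ### the translation -/

theorem dir_eq {σ : Type} [Fintype σ] (f : MvPolynomial σ ℚ) (z w : σ → ℚ) :
    dir f z w = V7H27.AK.dd f z w := rfl

theorem elim_inj {n N M : ℕ} {A : Finset ((Fin n → ℤ) × (Fin n → ℤ))}
    {X Y : (Fin N ⊕ Fin M → ℚ) → Fin n → ℚ} {z : (Fin n → ℤ) × (Fin n → ℤ) → Fin N ⊕ Fin M → ℚ}
    (h1 : ∀ p ∈ A, ∀ l, (p.1 l : ℚ) = X (z p) l) (h2 : ∀ p ∈ A, ∀ l, (p.2 l : ℚ) = Y (z p) l) :
    Set.InjOn z A := by
  intro p hp q hq h
  refine Prod.ext (funext fun l => ?_) (funext fun l => ?_)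
  · have h3 := h1 p hp l
    rw [h, ← h1 q hq l] at h3
    exact_mod_cast h3
  · have h3 := h2 p hp l
    rw [h, ← h2 q hq l] at h3
    exact_mod_cast h3

theorem piece_le {n N M h k B : ℕ} (hh : 1 ≤ h) (hk : 1 ≤ k) (hB1 : 1 ≤ B) (S : Finset ℚ)
    (hS : (-1 : ℚ) ∉ S) (hS1 : S.Nonempty) (A : Finset ((Fin n → ℤ) × (Fin n → ℤ)))
    (hA : AlgebraicChart N M h k B A ∨ ImplicitChart N M h k B A) :
    V7H27.AK.Bound S N B (h ^ N * k ^ (2 * M)) #A fun r => #(projn r A) := by
  classical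
  rcases hA with ⟨g, D, Y, u, v, hg, hD, hY, hu, hA⟩ | ⟨G, X, Y, u, v, hG, hX, hY, hu, hA⟩
  · set z : (Fin n → ℤ) × (Fin n → ℤ) → Fin N ⊕ Fin M → ℚ := fun p => Sum.elim (u p) (v p) with hz
    have hx : ∀ p ∈ A, ∀ l, (p.1 l : ℚ) = eval (u p) (D l) + eval (z p) (Y l) := by
      intro p hp l
      rw [← (hA p hp).1 l, hz, ← (hA p hp).2.1 l, sub_add_cancel]
    have hzi : Set.InjOn z A := by
      refine elim_inj (X := fun z l => eval (fun i => z (Sum.inl i)) (D l) + eval z (Y l))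
        (Y := fun z l => eval z (Y l)) (fun p hp l => ?_) (fun p hp l => (hA p hp).2.1 l)
      exact hx p hp l
    have hmain := V7H27.AK.card_le_alg hh hk hB1 g D Y hg hD hY S hS hS1 (A.image z)
      (fun q hq => by
        obtain ⟨p, hp, rfl⟩ := mem_image.1 hq
        exact (hA p hp).2.2.1)
      (fun q hq => by
        obtain ⟨p, hp, rfl⟩ := mem_image.1 hq
        exact (hA p hp).2.2.2)
      (fun i => by
        rw [image_image]
        exact hu i)
    rw [card_image_of_injOn hzi] at hmain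
    have h4 : ∀ r : ℚ, (A.image z).image (fun z i => (eval (fun i => z (Sum.inl i)) (D i) +
        eval z (Y i)) + r * eval z (Y i)) = projn r A := by
      intro r
      rw [image_image, projn]
      refine image_congr fun p hp => ?_
      funext l
      show _ = (p.1 l : ℚ) + r * (p.2 l : ℚ)
      rw [hx p hp l, (hA p hp).2.1 l]
      rfl
    simp only [h4] at hmain
    exact hmain
  · set z : (Fin n → ℤ) × (Fin n → ℤ) → Fin N ⊕ Fin M → ℚ := fun p => Sum.elim (u p) (v p) with hz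
    have hzi : Set.InjOn z A := elim_inj (X := fun z l => eval z (X l)) (Y := fun z l => eval z (Y l))
      (fun p hp l => (hA p hp).1 l) (fun p hp l => (hA p hp).2.1 l)
    have hmain := V7H27.AK.card_le_chart hh hk hB1 G X Y hG hX hY S hS hS1 (A.image z)
      (fun q hq => by
        obtain ⟨p, hp, rfl⟩ := mem_image.1 hq
        exact (hA p hp).2.2.1)
      (fun q hq w hw1 hw2 => by
        obtain ⟨p, hp, rfl⟩ := mem_image.1 hq
        exact (hA p hp).2.2.2 w hw1 (Or.inl hw2))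
      (fun q hq w hw1 hw2 => by
        obtain ⟨p, hp, rfl⟩ := mem_image.1 hq
        refine (hA p hp).2.2.2 w hw1 (Or.inr fun l => ?_)
        have h3 := hw2 l
        rw [V7H27.AK.dd_sub] at h3
        exact sub_eq_zero.1 h3)
      (fun i => by
        rw [image_image]
        exact hu i)
    rw [card_image_of_injOn hzi] at hmain
    have h4 : ∀ r : ℚ, (A.image z).image (fun z i => eval z (X i) + r * eval z (Y i)) =
        projn r A := by
      intro r
      rw [image_image, projn]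
      refine image_congr fun p hp => ?_
      funext l
      show _ = (p.1 l : ℚ) + r * (p.2 l : ℚ)
      rw [(hA p hp).1 l, (hA p hp).2.1 l]
      rfl
    simp only [h4] at hmain
    have h5 := hmain.mono (k ^ M) (a := #A) (π := fun r => #(projn r A))
      (Nat.le_mul_of_pos_left _ (by positivity)) (fun _ _ => le_rfl)
    have h6 : h ^ N * k ^ (2 * M) = k ^ M * (h ^ N * k ^ M) := by
      rw [two_mul, pow_add]
      ring
    rw [h6]
    exact h5

theorem chart_mono {n N M h k B : ℕ} {A A' : Finset ((Fin n → ℤ) × (Fin n → ℤ))}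
    (hA : AlgebraicChart N M h k B A ∨ ImplicitChart N M h k B A) (hsub : A' ⊆ A) :
    AlgebraicChart N M h k B A' ∨ ImplicitChart N M h k B A' := by
  classical
  rcases hA with ⟨g, D, Y, u, v, hg, hD, hY, hu, hA⟩ | ⟨G, X, Y, u, v, hG, hX, hY, hu, hA⟩
  · exact Or.inl ⟨g, D, Y, u, v, hg, hD, hY,
      fun i => (card_le_card (image_subset_image hsub)).trans (hu i), fun p hp => hA p (hsub hp)⟩
  · exact Or.inr ⟨G, X, Y, u, v, hG, hX, hY,
      fun i => (card_le_card (image_subset_image hsub)).trans (hu i), fun p hp => hA p (hsub hp)⟩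

theorem covered_le {n N M m h k B : ℕ} (hh : 1 ≤ h) (hk : 1 ≤ k) (hB1 : 1 ≤ B) (S : Finset ℚ)
    (hS : (-1 : ℚ) ∉ S) (hS1 : S.Nonempty) (A : Finset ((Fin n → ℤ) × (Fin n → ℤ)))
    (hA : Covered N M m h k B A) :
    V7H27.AK.Bound S N B (m * (h ^ N * k ^ (2 * M))) #A fun r => #(projn r A) := by
  classical
  obtain ⟨P, hP1, hP2⟩ := hA
  rcases A.eq_empty_or_nonempty with h0 | ⟨p0, hp0⟩
  · obtain ⟨r, hr⟩ := hS1
    refine ⟨⟨r, hr, ?_⟩, ?_⟩
    · rw [h0, card_empty]
      exact Nat.zero_le _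
    · rw [h0, card_empty, zero_pow (card_pos.2 ⟨r, hr⟩).ne']
      exact Nat.zero_le _
  have hne : Nonempty (Fin m) := ⟨(hP2 p0 hp0).choose⟩
  choose! l hl using hP2
  obtain ⟨l0, -, hl0⟩ : ∃ l0 ∈ (univ : Finset (Fin m)), #A ≤ m * #(A.filter fun p => l p = l0) := by
    by_contra hc
    push Not at hc
    have h2 : #A = ∑ l0, #(A.filter fun p => l p = l0) :=
      card_eq_sum_card_fiberwise fun p _ => mem_univ _
    have h3 : ∑ l0, m * #(A.filter fun p => l p = l0) < ∑ _l0 : Fin m, #A :=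
      sum_lt_sum_of_nonempty univ_nonempty hc
    rw [← mul_sum, ← h2, sum_const, smul_eq_mul, card_univ, Fintype.card_fin] at h3
    exact lt_irrefl _ h3
  have hpc := chart_mono (A' := A.filter fun p => l p = l0) (hP1 l0) (fun p hp => by
    rw [mem_filter] at hp
    rw [← hp.2]
    exact hl p hp.1)
  exact (piece_le hh hk hB1 S hS hS1 _ hpc).mono m hl0 fun r _ =>
    card_le_card (image_subset_image (filter_subset _ _))

theorem covered_max {n N M m h k B : ℕ} (hh : 1 ≤ h) (hk : 1 ≤ k) (hB1 : 1 ≤ B) (S : Finset ℚ)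
    (hS : (-1 : ℚ) ∉ S) (hS1 : S.Nonempty) (A : Finset ((Fin n → ℤ) × (Fin n → ℤ)))
    (hA : Covered N M m h k B A) :
    #A ≤ #S * (4 * h) ^ N * (m * k ^ (2 * M)) * B ^ (N / #S) * big S A := by
  obtain ⟨⟨r, hr, h1⟩, -⟩ := covered_le hh hk hB1 S hS hS1 A hA
  refine h1.trans ((Nat.mul_le_mul_left _ (le_sup (f := fun r => #(projn r A)) hr)).trans
    (le_of_eq ?_))
  rw [mul_pow]
  show #S * (4 ^ N * (m * (h ^ N * k ^ (2 * M)))) * B ^ (N / #S) * big S A = _
  ring

theorem covered_gm {n N M m h k B : ℕ} (hh : 1 ≤ h) (hk : 1 ≤ k) (hB1 : 1 ≤ B) (S : Finset ℚ)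
    (hS : (-1 : ℚ) ∉ S) (hS1 : S.Nonempty) (A : Finset ((Fin n → ℤ) × (Fin n → ℤ)))
    (hA : Covered N M m h k B A) :
    #A ^ #S ≤ (m * h ^ N * k ^ (2 * M)) ^ #S * (9 * #S ^ 2 * B) ^ N * ∏ r ∈ S, #(projn r A) := by
  have h1 := (covered_le hh hk hB1 S hS hS1 A hA).2
  rwa [← mul_assoc m] at h1

/-! ### the asymptotic form -/

theorem exists_size (ε : ℝ) (hε : 0 < ε) : ∃ s₀ : ℕ, 1 ≤ s₀ ∧ ∀ s, s₀ ≤ s → ∀ B : ℕ, 2 ≤ B →
    9 * (s : ℝ) ^ 2 * B ≤ (B : ℝ) ^ (ε * s) := by
  have hr : 1 < (2 : ℝ) ^ (ε / 2) := Real.one_lt_rpow (by norm_num) (by positivity)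
  have h1 := (tendsto_pow_const_div_const_pow_of_one_lt 2 hr).eventually
    (gt_mem_nhds (show (0 : ℝ) < 1 / 9 by norm_num))
  obtain ⟨s₁, hs₁⟩ := Filter.eventually_atTop.1 h1
  refine ⟨max (max s₁ 1) ⌈2 / ε⌉₊, le_trans (le_max_right _ _) (le_max_left _ _), ?_⟩
  intro s hs B hB
  have h2 := hs₁ s (le_trans (le_trans (le_max_left _ _) (le_max_left _ _)) hs)
  have h3 : 2 / ε ≤ s := (Nat.le_ceil _).trans (by exact_mod_cast (le_max_right _ _).trans hs)
  have hB2 : (2 : ℝ) ≤ B := by exact_mod_cast hB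
  have hB0 : (0 : ℝ) < B := by linarith
  have h4 : 9 * (s : ℝ) ^ 2 ≤ ((2 : ℝ) ^ (ε / 2)) ^ s := by
    rw [div_lt_div_iff₀ (by positivity) (by norm_num)] at h2
    linarith
  have h5 : ((2 : ℝ) ^ (ε / 2)) ^ s ≤ (B : ℝ) ^ (ε / 2 * s) := by
    rw [Real.rpow_mul hB0.le, Real.rpow_natCast]
    exact pow_le_pow_left₀ (by positivity) (Real.rpow_le_rpow (by norm_num) hB2 (by positivity)) s
  have h6 : (B : ℝ) ≤ (B : ℝ) ^ (ε / 2 * s) := by
    conv_lhs => rw [← Real.rpow_one (B : ℝ)]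
    refine Real.rpow_le_rpow_of_exponent_le (by linarith) ?_
    rw [div_le_iff₀ hε] at h3
    linarith
  calc 9 * (s : ℝ) ^ 2 * B ≤ (B : ℝ) ^ (ε / 2 * s) * (B : ℝ) ^ (ε / 2 * s) :=
        mul_le_mul (h4.trans h5) h6 hB0.le (by positivity)
    _ = (B : ℝ) ^ (ε * s) := by
        rw [← Real.rpow_add hB0]
        congr 1
        ring

theorem asym (ε : ℝ) (hε : 0 < ε) : ∃ s₀ : ℕ, 1 ≤ s₀ ∧
    ∀ (n N M m h k B : ℕ) (S : Finset ℚ) (A : Finset ((Fin n → ℤ) × (Fin n → ℤ))),
      1 ≤ h → 1 ≤ k → 2 ≤ B → (-1 : ℚ) ∉ S → s₀ ≤ #S → Covered N M m h k B A →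
      (#A : ℝ) ≤ (m * h ^ N * k ^ (2 * M) : ℕ) * (B : ℝ) ^ (ε * N) * gm S A := by
  classical
  obtain ⟨s₀, hs₀, H⟩ := exists_size ε hε
  refine ⟨s₀, hs₀, ?_⟩
  intro n N M m h k B S A hh hk hB hS hsS hA
  have hs1 : 1 ≤ #S := hs₀.trans hsS
  have hsR : (0 : ℝ) < #S := by exact_mod_cast hs1
  have hB0 : (0 : ℝ) < B := by exact_mod_cast (show 0 < B by omega)
  have h1 := covered_gm hh hk (by omega) S hS (card_pos.1 hs1) A hA
  have h2 : (#A : ℝ) ^ #S ≤ ((m * h ^ N * k ^ (2 * M) : ℕ) : ℝ) ^ #S * (9 * (#S : ℝ) ^ 2 * B) ^ N *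
      ∏ r ∈ S, (#(projn r A) : ℝ) := by
    exact_mod_cast h1
  set P : ℝ := ∏ r ∈ S, (#(projn r A) : ℝ) with hP
  have hP0 : 0 ≤ P := prod_nonneg fun _ _ => by positivity
  have h3 : (9 * (#S : ℝ) ^ 2 * B) ^ N ≤ ((B : ℝ) ^ (ε * N)) ^ #S := by
    calc (9 * (#S : ℝ) ^ 2 * B) ^ N ≤ ((B : ℝ) ^ (ε * #S)) ^ N :=
          pow_le_pow_left₀ (by positivity) (H #S hsS B hB) N
      _ = ((B : ℝ) ^ (ε * N)) ^ #S := by
          rw [← Real.rpow_natCast, ← Real.rpow_mul hB0.le, ← Real.rpow_natCast,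
            ← Real.rpow_mul hB0.le]
          congr 1
          ring
  have hgm : (gm S A) ^ #S = P := by
    rw [gm, ← Real.rpow_natCast, ← Real.rpow_mul hP0, one_div, inv_mul_cancel₀ hsR.ne',
      Real.rpow_one]
  have h4 : (#A : ℝ) ^ #S ≤ (((m * h ^ N * k ^ (2 * M) : ℕ) : ℝ) * (B : ℝ) ^ (ε * N) * gm S A) ^ #S := by
    rw [mul_pow, mul_pow, hgm]
    refine h2.trans (mul_le_mul_of_nonneg_right (mul_le_mul_of_nonneg_left h3 (by positivity)) hP0)
  have hgm0 : 0 ≤ gm S A := Real.rpow_nonneg hP0 _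
  exact le_of_pow_le_pow_left₀ (by omega) (by positivity) h4

theorem card_proj_flat {n : ℕ} (w : Fin n → ℤ) (S : Finset ℚ)
    (A : Finset ((Fin n → ℤ) × (Fin n → ℤ))) (hw : Sep w S A) (r : ℚ) (hr : r ∈ S) :
    #(proj r (flat w A)) = #(projn r A) := by
  have h1 : proj r (flat w A) = (projn r A).image fun v : Fin n → ℚ => ∑ i, (w i : ℚ) * v i := by
    rw [proj, flat, projn, image_image, image_image]
    refine image_congr fun p _ => ?_
    simp only [Function.comp_apply]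
    push_cast
    rw [mul_sum, ← sum_add_distrib]
    refine sum_congr rfl fun i _ => ?_
    ring
  rw [h1]
  exact card_image_of_injOn (hw r hr)

theorem exists_sep {n : ℕ} (S : Finset ℚ) (A : Finset ((Fin n → ℤ) × (Fin n → ℤ))) :
    ∃ w : Fin n → ℤ, Sep w S A := by
  classical
  set F : Finset (Fin n → ℚ) := S.biUnion fun r => projn r A with hF
  set D : Finset (Fin n → ℚ) := ((F ×ˢ F).image fun p => p.1 - p.2).erase 0 with hD
  set Q : (Fin n → ℚ) → Polynomial ℚ := fun v => ∑ i, Polynomial.C (v i) * Polynomial.X ^ (i : ℕ) with hQ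
  have hQ0 : ∀ v : Fin n → ℚ, v ≠ 0 → Q v ≠ 0 := by
    intro v hv h
    apply hv
    funext i
    have h1 := congrArg (fun P => Polynomial.coeff P (i : ℕ)) h
    simp only [hQ, Polynomial.finsetSum_coeff, Polynomial.coeff_C_mul, Polynomial.coeff_X_pow,
      Polynomial.coeff_zero, mul_ite, mul_one, mul_zero] at h1
    rw [sum_eq_single i] at h1
    · simpa using h1
    · intro j _ hji
      rw [if_neg]
      intro h2
      exact hji (Fin.ext h2.symm)
    · intro h2
      exact absurd (mem_univ _) h2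
  have hprod : ∏ v ∈ D, Q v ≠ 0 := prod_ne_zero_iff.2 fun v hv => hQ0 v (ne_of_mem_erase hv)
  obtain ⟨a, ⟨M, rfl⟩, ha⟩ := (Set.infinite_range_of_injective
    (Nat.cast_injective (R := ℚ))).exists_notMem_finset (∏ v ∈ D, Q v).roots.toFinset
  have hM : ∀ v ∈ D, ∑ i : Fin n, ((M : ℚ) ^ (i : ℕ)) * v i ≠ 0 := by
    intro v hv h
    apply ha
    rw [Multiset.mem_toFinset, Polynomial.mem_roots hprod, Polynomial.IsRoot, Polynomial.eval_prod]
    refine prod_eq_zero hv ?_
    rw [hQ]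
    simp only [Polynomial.eval_finsetSum, Polynomial.eval_mul, Polynomial.eval_C,
      Polynomial.eval_pow, Polynomial.eval_X]
    rw [← h]
    exact sum_congr rfl fun i _ => mul_comm _ _
  refine ⟨fun i : Fin n => (M : ℤ) ^ (i : ℕ), ?_⟩
  intro r hr v hv v' hv' h
  by_contra hne
  have hvD : v - v' ∈ D := by
    refine mem_erase.2 ⟨sub_ne_zero.2 hne, mem_image.2 ⟨(v, v'), mem_product.2 ⟨?_, ?_⟩, rfl⟩⟩
    · exact mem_biUnion.2 ⟨r, hr, hv⟩
    · exact mem_biUnion.2 ⟨r, hr, hv'⟩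
  apply hM _ hvD
  simp only at h
  push_cast at h
  simp only [Pi.sub_apply, mul_sub, sum_sub_distrib]
  rw [h, sub_self]

theorem gm_le_big {n : ℕ} (S : Finset ℚ) (hS : S.Nonempty) (A : Finset ((Fin n → ℤ) × (Fin n → ℤ))) :
    gm S A ≤ big S A := by
  have hs : 0 < #S := card_pos.2 hS
  have hsR : (0 : ℝ) < #S := by exact_mod_cast hs
  have h1 : ∏ r ∈ S, (#(projn r A) : ℝ) ≤ (big S A : ℝ) ^ #S := by
    refine (prod_le_prod (fun _ _ => by positivity) (g := fun _ => (big S A : ℝ))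
      (fun r hr => ?_)).trans (by rw [prod_const])
    exact_mod_cast le_sup (f := fun r => #(projn r A)) hr
  calc gm S A ≤ ((big S A : ℝ) ^ #S) ^ (1 / (#S : ℝ)) :=
        Real.rpow_le_rpow (prod_nonneg fun _ _ => by positivity) h1 (by positivity)
    _ = big S A := by
        rw [← Real.rpow_natCast, ← Real.rpow_mul (by positivity), one_div,
          mul_inv_cancel₀ hsR.ne', Real.rpow_one]

theorem power (ε κ c : ℝ) (hε : 0 < ε) (hκ : 0 ≤ κ) (hc : κ < c) : ∃ s₀ : ℕ, 1 ≤ s₀ ∧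
    ∀ (n N M m h k B : ℕ) (S : Finset ℚ) (A : Finset ((Fin n → ℤ) × (Fin n → ℤ))),
      1 ≤ h → 1 ≤ k → 2 ≤ B → ((m * h ^ N * k ^ (2 * M) : ℕ) : ℝ) ≤ (B : ℝ) ^ (κ * N) →
      (-1 : ℚ) ∉ S → s₀ ≤ #S → Covered N M m h k B A → (B : ℝ) ^ (c * N) ≤ #A →
      (#A : ℝ) ≤ (gm S A) ^ (c / (c - κ) + ε) := by
  classical
  have hcκ : 0 < c - κ := by linarith
  have hc0 : 0 < c := by linarith
  set e : ℝ := c / (c - κ) + ε with he
  have he0 : 0 < e := by positivity
  set η : ℝ := (1 - 1 / e) * c - κ with hη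
  have hη0 : 0 < η := by
    have h1 : c / (c - κ) < e := by linarith
    have h2 : 1 / e < (c - κ) / c := by
      rw [div_lt_div_iff₀ he0 hc0]
      rw [div_lt_iff₀ hcκ] at h1
      linarith
    have h3 : 1 / e * c < c - κ := by
      rwa [lt_div_iff₀ hc0] at h2
    rw [hη]
    linarith
  obtain ⟨s₀, hs₀, H⟩ := asym η hη0
  refine ⟨s₀, hs₀, ?_⟩
  intro n N M m h k B S A hh hk hB hloss hS hsS hA hcA
  have hB0 : (0 : ℝ) < B := by exact_mod_cast (show 0 < B by omega)
  have h1 := H n N M m h k B S A hh hk hB hS hsS hA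
  have hgm0 : 0 ≤ gm S A := Real.rpow_nonneg (prod_nonneg fun _ _ => by positivity) _
  have hA0 : (0 : ℝ) < #A := lt_of_lt_of_le (Real.rpow_pos_of_pos hB0 _) hcA
  have h2 : ((m * h ^ N * k ^ (2 * M) : ℕ) : ℝ) * (B : ℝ) ^ (η * N) ≤ (#A : ℝ) ^ (1 - 1 / e) := by
    have h3 : 0 ≤ 1 - 1 / e := by
      have h4 : κ + η = (1 - 1 / e) * c := by rw [hη]; ring
      by_contra hneg
      push Not at hneg
      have h5 : (1 - 1 / e) * c < 0 := mul_neg_of_neg_of_pos hneg hc0
      linarith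
    calc ((m * h ^ N * k ^ (2 * M) : ℕ) : ℝ) * (B : ℝ) ^ (η * N) ≤
        (B : ℝ) ^ (κ * N) * (B : ℝ) ^ (η * N) :=
          mul_le_mul_of_nonneg_right hloss (Real.rpow_nonneg hB0.le _)
      _ = ((B : ℝ) ^ (c * N)) ^ (1 - 1 / e) := by
          rw [← Real.rpow_add hB0, ← Real.rpow_mul hB0.le]
          congr 1
          rw [hη]
          ring
      _ ≤ (#A : ℝ) ^ (1 - 1 / e) := Real.rpow_le_rpow (by positivity) hcA h3
  have h5 : (#A : ℝ) ≤ (#A : ℝ) ^ (1 - 1 / e) * gm S A :=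
    h1.trans (mul_le_mul_of_nonneg_right h2 hgm0)
  have h6 : (#A : ℝ) ^ (1 / e) ≤ gm S A := by
    have h7 : (#A : ℝ) = (#A : ℝ) ^ (1 - 1 / e) * (#A : ℝ) ^ (1 / e) := by
      rw [← Real.rpow_add hA0, sub_add_cancel, Real.rpow_one]
    have h8 : (#A : ℝ) ^ (1 - 1 / e) * (#A : ℝ) ^ (1 / e) ≤
        (#A : ℝ) ^ (1 - 1 / e) * gm S A := by
      rw [← h7]
      exact h5
    exact le_of_mul_le_mul_left h8 (Real.rpow_pos_of_pos hA0 _)
  calc (#A : ℝ) = ((#A : ℝ) ^ (1 / e)) ^ e := by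
        rw [← Real.rpow_mul hA0.le, one_div, inv_mul_cancel₀ he0.ne', Real.rpow_one]
    _ ≤ (gm S A) ^ e := Real.rpow_le_rpow (by positivity) h6 he0.le

theorem kakeya (ε c : ℝ) (hε : 0 < ε) (hc : 0 < c) : ∃ (s₀ : ℕ) (δ : ℝ), 1 ≤ s₀ ∧ 0 < δ ∧
    ∀ (n N M m h k B : ℕ) (S : Finset ℚ) (A : Finset ((Fin n → ℤ) × (Fin n → ℤ))),
      1 ≤ h → 1 ≤ k → 2 ≤ B → ((m * h ^ N * k ^ (2 * M) : ℕ) : ℝ) ≤ (B : ℝ) ^ (δ * N) →
      (-1 : ℚ) ∉ S → s₀ ≤ #S → Covered N M m h k B A → (B : ℝ) ^ (c * N) ≤ #A →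
      ∀ w : Fin n → ℤ, Sep w S A → (#(proj (-1) (flat w A)) : ℝ) ≤
        ((S.sup fun r => #(proj r (flat w A)) : ℕ) : ℝ) ^ (1 + ε) := by
  classical
  set δ : ℝ := c * (ε / 2) / (1 + ε / 2) with hδ
  have hδ0 : 0 < δ := by positivity
  have hδc : δ < c := by
    rw [hδ, div_lt_iff₀ (by positivity)]
    nlinarith
  obtain ⟨s₀, hs₀, H⟩ := power (ε / 2) δ c (by positivity) hδ0.le hδc
  refine ⟨s₀, δ, hs₀, hδ0, ?_⟩
  intro n N M m h k B S A hh hk hB hloss hS hsS hA hcA w hw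
  have h1 := H n N M m h k B S A hh hk hB hloss hS hsS hA hcA
  have h2 : c / (c - δ) + ε / 2 = 1 + ε := by
    have h3 : c - δ = c / (1 + ε / 2) := by
      rw [hδ]
      field_simp
      ring
    rw [h3]
    field_simp
    ring
  rw [h2] at h1
  have h3 : (S.sup fun r => #(proj r (flat w A))) = big S A :=
    sup_congr rfl fun r hr => card_proj_flat w S A hw r hr
  rw [h3]
  have hgm0 : 0 ≤ gm S A := Real.rpow_nonneg (prod_nonneg fun _ _ => by positivity) _
  have h4 : #(proj (-1) (flat w A)) ≤ #A := card_image_le.trans card_image_le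
  calc (#(proj (-1) (flat w A)) : ℝ) ≤ #A := by exact_mod_cast h4
    _ ≤ (gm S A) ^ (1 + ε) := h1
    _ ≤ (big S A : ℝ) ^ (1 + ε) :=
      Real.rpow_le_rpow hgm0 (gm_le_big S (card_pos.1 (hs₀.trans hsS)) A) (by positivity)

/-! ### examples -/

/-- `y_j` is a zero of `g_j(x - y, ·)` -/
theorem graph {n k B : ℕ} (A : Finset ((Fin n → ℤ) × (Fin n → ℤ)))
    (hB : ∀ i, #(A.image fun p => p.1 i - p.2 i) ≤ B)
    (hA : ∃ g : Fin n → MvPolynomial (Fin n ⊕ Unit) ℚ, (∀ j, (g j).totalDegree ≤ k) ∧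
      ∀ p ∈ A, ∀ j, eval (Sum.elim (fun i => (p.1 i : ℚ) - (p.2 i : ℚ)) fun _ => (p.2 j : ℚ)) (g j) = 0 ∧
        ∃ c : ℚ, eval (Sum.elim (fun i => (p.1 i : ℚ) - (p.2 i : ℚ)) fun _ => c) (g j) ≠ 0) :
    AlgebraicChart n n 1 k B A := by
  classical
  obtain ⟨g, hg, hA⟩ := hA
  refine ⟨g, fun l => X l, fun l => X (Sum.inr l), fun p i => (p.1 i : ℚ) - (p.2 i : ℚ),
    fun p i => (p.2 i : ℚ), hg, fun l => (totalDegree_X l).le,
    fun l => (totalDegree_X _).le, fun i => ?_, fun p hp => ⟨fun l => ?_, fun l => ?_,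
    fun j => hA p hp j, fun a ha => ?_⟩⟩
  · have h1 : (A.image fun p => (p.1 i : ℚ) - (p.2 i : ℚ)) =
        (A.image fun p => p.1 i - p.2 i).image (fun t : ℤ => (t : ℚ)) := by
      rw [image_image]
      refine image_congr fun p _ => ?_
      simp
    rw [h1]
    exact card_image_le.trans (hB i)
  · rw [eval_X]
  · rw [eval_X, Sum.elim_inr]
  · funext i
    have h1 := ha i
    rw [dir_eq, V7H27.AK.dd_X] at h1
    exact h1

/-- `y_j = f_j(x - y)` -/
theorem polyGraph {n h B : ℕ} (hh : 1 ≤ h) (A : Finset ((Fin n → ℤ) × (Fin n → ℤ)))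
    (hB : ∀ i, #(A.image fun p => p.1 i - p.2 i) ≤ B)
    (hA : ∃ f : Fin n → MvPolynomial (Fin n) ℚ, (∀ j, (f j).totalDegree ≤ h) ∧
      ∀ p ∈ A, ∀ j, (p.2 j : ℚ) = eval (fun i => (p.1 i : ℚ) - (p.2 i : ℚ)) (f j)) :
    AlgebraicChart n 0 h 1 B A := by
  classical
  obtain ⟨f, hf, hA⟩ := hA
  refine ⟨fun j => j.elim0, fun l => X l, fun l => rename Sum.inl (f l),
    fun p i => (p.1 i : ℚ) - (p.2 i : ℚ), fun _ i => i.elim0, fun j => j.elim0,
    fun l => (totalDegree_X l).le.trans hh, fun l => (totalDegree_rename_le _ _).trans (hf l),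
    fun i => ?_, fun p hp => ⟨fun l => ?_, fun l => ?_, fun j => j.elim0, fun a ha => ?_⟩⟩
  · have h1 : (A.image fun p => (p.1 i : ℚ) - (p.2 i : ℚ)) =
        (A.image fun p => p.1 i - p.2 i).image (fun t : ℤ => (t : ℚ)) := by
      rw [image_image]
      refine image_congr fun p _ => ?_
      simp
    rw [h1]
    exact card_image_le.trans (hB i)
  · rw [eval_X]
  · rw [eval_rename, hA p hp l]
    rfl
  · funext i
    have h1 := ha i
    rw [dir_eq, V7H27.AK.dd_X] at h1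
    exact h1

/-- the slope which belongs to the coordinate `j` -/
noncomputable def slope (S : Finset ℚ) (q : ℕ) (j : Fin (#S * q)) : ℚ :=
  (S.equivFin.symm (finProdFinEquiv.symm j).1).1

theorem slope_mem (S : Finset ℚ) (q : ℕ) (j : Fin (#S * q)) : slope S q j ∈ S :=
  (S.equivFin.symm (finProdFinEquiv.symm j).1).2

theorem card_slope (S : Finset ℚ) (q : ℕ) (r : ℚ) (hr : r ∈ S) :
    q ≤ #(univ.filter fun j => slope S q j = r) := by
  classical
  have h1 : (univ.image fun l : Fin q => (finProdFinEquiv (S.equivFin ⟨r, hr⟩, l) : Fin (#S * q))) ⊆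
      univ.filter fun j => slope S q j = r := by
    intro j hj
    obtain ⟨l, -, rfl⟩ := mem_image.1 hj
    rw [mem_filter]
    refine ⟨mem_univ _, ?_⟩
    rw [slope, Equiv.symm_apply_apply]
    simp
  have h2 := card_le_card h1
  rwa [card_image_of_injective, card_univ, Fintype.card_fin] at h2
  intro l l' h
  have h3 := finProdFinEquiv.injective h
  exact (Prod.ext_iff.1 h3).2

/-- the factor `B ^ ⌊N / |S|⌋` is needed already for linear graphs -/
theorem sharp (S : Finset ℚ) (hS : (-1 : ℚ) ∉ S) (q B : ℕ) :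
    ∃ A : Finset ((Fin (#S * q) → ℤ) × (Fin (#S * q) → ℤ)),
      AlgebraicChart (#S * q) 0 1 1 B A ∧ #A = B ^ (#S * q) ∧
      ∀ r ∈ S, #(projn r A) * B ^ q ≤ #A := by
  classical
  set a : Fin (#S * q) → ℤ := fun j => (slope S q j).num with ha
  set b : Fin (#S * q) → ℤ := fun j => (slope S q j).den with hb
  have hb0 : ∀ j, b j ≠ 0 := fun j => by
    show ((slope S q j).den : ℤ) ≠ 0
    exact_mod_cast (slope S q j).den_ne_zero
  have hbq : ∀ j, (b j : ℚ) ≠ 0 := fun j => by exact_mod_cast hb0 j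
  have hab : ∀ j, (a j : ℚ) = slope S q j * b j := fun j => by
    show (((slope S q j).num : ℤ) : ℚ) = slope S q j * (((slope S q j).den : ℤ) : ℚ)
    have h1 := Rat.mul_den_eq_num (slope S q j)
    push_cast
    exact h1.symm
  set φ : (Fin (#S * q) → ℕ) → (Fin (#S * q) → ℤ) × (Fin (#S * q) → ℤ) := fun e =>
    (fun j => a j * e j, fun j => -(b j * e j)) with hφ
  have hφi : Function.Injective φ := by
    intro e e' h
    funext j
    have h1 : -(b j * (e j : ℤ)) = -(b j * (e' j : ℤ)) := congrFun (Prod.ext_iff.1 h).2 j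
    exact_mod_cast mul_left_cancel₀ (hb0 j) (neg_injective h1)
  set E : Finset (Fin (#S * q) → ℕ) := Fintype.piFinset fun _ => range B with hE
  have hcard : #(E.image φ) = B ^ (#S * q) := by
    rw [card_image_of_injective _ hφi, hE, Fintype.card_piFinset]
    simp
  refine ⟨E.image φ, ?_, hcard, fun r hr => ?_⟩
  · refine ⟨fun j => j.elim0, fun l => C (((a l + b l : ℤ)) : ℚ) * X l,
      fun l => C (-(b l : ℚ)) * X (Sum.inl l), fun p i => -(p.2 i : ℚ) / b i, fun _ i => i.elim0,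
      fun j => j.elim0, fun l => ?_, fun l => ?_, fun i => ?_, fun p hp => ?_⟩
    · refine (totalDegree_mul _ _).trans ?_
      rw [totalDegree_C, zero_add]
      exact (totalDegree_X _).le
    · refine (totalDegree_mul _ _).trans ?_
      rw [totalDegree_C, zero_add]
      exact (totalDegree_X _).le
    · have h1 : (E.image φ).image (fun p => -(p.2 i : ℚ) / b i) ⊆
          (range B).image fun t : ℕ => (t : ℚ) := by
        intro t ht
        obtain ⟨p, hp, rfl⟩ := mem_image.1 ht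
        obtain ⟨e, he, rfl⟩ := mem_image.1 hp
        refine mem_image.2 ⟨e i, Fintype.mem_piFinset.1 he i, ?_⟩
        show (e i : ℚ) = -((-(b i * (e i : ℤ)) : ℤ) : ℚ) / b i
        push_cast
        rw [neg_neg, mul_div_cancel_left₀ _ (hbq i)]
      refine (card_le_card h1).trans (card_image_le.trans ?_)
      rw [card_range]
    · obtain ⟨e, he, rfl⟩ := mem_image.1 hp
      have hu : ∀ i, -(((φ e).2 i : ℤ) : ℚ) / b i = e i := by
        intro i
        show -((-(b i * (e i : ℤ)) : ℤ) : ℚ) / b i = e i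
        push_cast
        rw [neg_neg, mul_div_cancel_left₀ _ (hbq i)]
      refine ⟨fun l => ?_, fun l => ?_, fun j => j.elim0, fun w hw => ?_⟩
      · rw [map_mul, eval_C, eval_X]
        show ((a l * (e l : ℤ) : ℤ) : ℚ) - ((-(b l * (e l : ℤ)) : ℤ) : ℚ) =
          ((a l + b l : ℤ) : ℚ) * (-(((φ e).2 l : ℤ) : ℚ) / b l)
        rw [hu]
        push_cast
        ring
      · rw [map_mul, eval_C, eval_X, Sum.elim_inl]
        show ((-(b l * (e l : ℤ)) : ℤ) : ℚ) = -(b l : ℚ) * (-(((φ e).2 l : ℤ) : ℚ) / b l)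
        rw [hu]
        push_cast
        ring
      · funext l
        have h1 := hw l
        rw [dir_eq, V7H27.AK.dd_C_mul, V7H27.AK.dd_X] at h1
        refine (mul_eq_zero.1 h1).resolve_left ?_
        push_cast
        rw [hab]
        intro h2
        have h3 : (slope S q l + 1) * (b l : ℚ) = 0 := by linarith
        have h4 := (mul_eq_zero.1 h3).resolve_right (hbq l)
        exact hS (by rw [show (-1 : ℚ) = slope S q l by linarith]; exact slope_mem S q l)
  · have h1 : projn r (E.image φ) ⊆ (Fintype.piFinset fun j =>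
        if slope S q j = r then {0} else range B).image
        fun (e : Fin (#S * q) → ℕ) j => ((a j : ℚ) - r * b j) * e j := by
      intro v hv
      rw [projn, image_image] at hv
      obtain ⟨e, he, rfl⟩ := mem_image.1 hv
      refine mem_image.2 ⟨fun j => if slope S q j = r then 0 else e j, ?_, ?_⟩
      · rw [Fintype.mem_piFinset]
        intro j
        by_cases hj : slope S q j = r
        · rw [if_pos hj, if_pos hj]
          exact mem_singleton_self _
        · rw [if_neg hj, if_neg hj]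
          exact Fintype.mem_piFinset.1 he j
      · funext j
        show ((a j : ℚ) - r * b j) * ((if slope S q j = r then 0 else e j : ℕ) : ℚ) =
          ((a j * (e j : ℤ) : ℤ) : ℚ) + r * ((-(b j * (e j : ℤ)) : ℤ) : ℚ)
        push_cast
        by_cases hj : slope S q j = r
        · rw [if_pos hj, hab, hj]
          ring
        · rw [if_neg hj]
          ring
    have h2 := (card_le_card h1).trans card_image_le
    rw [Fintype.card_piFinset] at h2
    have h3 : ∀ j, #(if slope S q j = r then ({0} : Finset ℕ) else range B) =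
        if slope S q j = r then 1 else B := by
      intro j
      by_cases hj : slope S q j = r
      · rw [if_pos hj, if_pos hj, card_singleton]
      · rw [if_neg hj, if_neg hj, card_range]
    rw [prod_congr rfl fun j _ => h3 j] at h2
    rw [hcard]
    rcases Nat.eq_zero_or_pos B with hB | hB
    · rcases Nat.eq_zero_or_pos q with hq | hq
      · subst hq
        simp only [Nat.mul_zero, pow_zero, mul_one] at h2 ⊢
        simpa using h2
      · rw [hB, zero_pow hq.ne', mul_zero]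
        exact Nat.zero_le _
    · calc #(projn r (E.image φ)) * B ^ q ≤ (∏ j, if slope S q j = r then 1 else B) *
            B ^ #(univ.filter fun j => slope S q j = r) :=
          Nat.mul_le_mul h2 (Nat.pow_le_pow_right hB (card_slope S q r hr))
        _ = (∏ j, if slope S q j = r then 1 else B) * ∏ j, if slope S q j = r then B else 1 := by
          rw [prod_ite (s := univ) (p := fun j => slope S q j = r) (fun _ => B), prod_const_one, mul_one,
            prod_const]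
        _ = ∏ _j : Fin (#S * q), B := by
          rw [← prod_mul_distrib]
          refine prod_congr rfl fun j _ => ?_
          by_cases hj : slope S q j = r
          · rw [if_pos hj, if_pos hj, one_mul]
          · rw [if_neg hj, if_neg hj, mul_one]
        _ = B ^ (#S * q) := by
          rw [prod_const, card_univ, Fintype.card_fin]

/-- **Main theorem** -/
theorem result :
    -- the inequalities for each finite set of slopes different from `-1`
    (∀ (n N M m h k B : ℕ) (S : Finset ℚ) (A : Finset ((Fin n → ℤ) × (Fin n → ℤ))),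
      1 ≤ h → 1 ≤ k → 1 ≤ B → (-1 : ℚ) ∉ S → S.Nonempty → Covered N M m h k B A →
      #A ^ #S ≤ (m * h ^ N * k ^ (2 * M)) ^ #S * (9 * #S ^ 2 * B) ^ N * ∏ r ∈ S, #(projn r A) ∧
      #A ≤ #S * (4 * h) ^ N * (m * k ^ (2 * M)) * B ^ (N / #S) * big S A) ∧
    -- all dimensions, with many slopes: a loss `m h ^ N k ^ (2 M) B ^ (ε N)`
    (∀ ε : ℝ, 0 < ε → ∃ s₀ : ℕ, 1 ≤ s₀ ∧
      ∀ (n N M m h k B : ℕ) (S : Finset ℚ) (A : Finset ((Fin n → ℤ) × (Fin n → ℤ))),
        1 ≤ h → 1 ≤ k → 2 ≤ B → (-1 : ℚ) ∉ S → s₀ ≤ #S → Covered N M m h k B A →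
        (#A : ℝ) ≤ (m * h ^ N * k ^ (2 * M) : ℕ) * (B : ℝ) ^ (ε * N) * gm S A) ∧
    -- the exponent for the sets with at least `B ^ (c N)` elements
    (∀ ε κ c : ℝ, 0 < ε → 0 ≤ κ → κ < c → ∃ s₀ : ℕ, 1 ≤ s₀ ∧
      ∀ (n N M m h k B : ℕ) (S : Finset ℚ) (A : Finset ((Fin n → ℤ) × (Fin n → ℤ))),
        1 ≤ h → 1 ≤ k → 2 ≤ B → ((m * h ^ N * k ^ (2 * M) : ℕ) : ℝ) ≤ (B : ℝ) ^ (κ * N) →
        (-1 : ℚ) ∉ S → s₀ ≤ #S → Covered N M m h k B A → (B : ℝ) ^ (c * N) ≤ #A →
        (#A : ℝ) ≤ (gm S A) ^ (c / (c - κ) + ε)) ∧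
    -- the inequality of the conjecture for the corresponding subsets of `ℤ × ℤ`
    (∀ ε c : ℝ, 0 < ε → 0 < c → ∃ (s₀ : ℕ) (δ : ℝ), 1 ≤ s₀ ∧ 0 < δ ∧
      ∀ (n N M m h k B : ℕ) (S : Finset ℚ) (A : Finset ((Fin n → ℤ) × (Fin n → ℤ))),
        1 ≤ h → 1 ≤ k → 2 ≤ B → ((m * h ^ N * k ^ (2 * M) : ℕ) : ℝ) ≤ (B : ℝ) ^ (δ * N) →
        (-1 : ℚ) ∉ S → s₀ ≤ #S → Covered N M m h k B A → (B : ℝ) ^ (c * N) ≤ #A →
        ∀ w : Fin n → ℤ, Sep w S A → (#(proj (-1) (flat w A)) : ℝ) ≤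
          ((S.sup fun r => #(proj r (flat w A)) : ℕ) : ℝ) ^ (1 + ε)) ∧
    -- such weights exist, and the projections have the same sizes
    (∀ (n : ℕ) (S : Finset ℚ) (A : Finset ((Fin n → ℤ) × (Fin n → ℤ))),
      (∃ w : Fin n → ℤ, Sep w S A) ∧
      ∀ w : Fin n → ℤ, Sep w S A → ∀ r ∈ S, #(proj r (flat w A)) = #(projn r A)) ∧
    -- examples: `y_j` is a zero of `g_j(x - y, ·)`, or `y_j = f_j(x - y)`
    (∀ (n k B : ℕ) (A : Finset ((Fin n → ℤ) × (Fin n → ℤ))),
      (∀ i, #(A.image fun p => p.1 i - p.2 i) ≤ B) →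
      (∃ g : Fin n → MvPolynomial (Fin n ⊕ Unit) ℚ, (∀ j, (g j).totalDegree ≤ k) ∧ ∀ p ∈ A, ∀ j,
        eval (Sum.elim (fun i => (p.1 i : ℚ) - (p.2 i : ℚ)) fun _ => (p.2 j : ℚ)) (g j) = 0 ∧
        ∃ c : ℚ, eval (Sum.elim (fun i => (p.1 i : ℚ) - (p.2 i : ℚ)) fun _ => c) (g j) ≠ 0) →
      AlgebraicChart n n 1 k B A) ∧
    (∀ (n h B : ℕ) (A : Finset ((Fin n → ℤ) × (Fin n → ℤ))), 1 ≤ h →
      (∀ i, #(A.image fun p => p.1 i - p.2 i) ≤ B) →
      (∃ f : Fin n → MvPolynomial (Fin n) ℚ, (∀ j, (f j).totalDegree ≤ h) ∧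
        ∀ p ∈ A, ∀ j, (p.2 j : ℚ) = eval (fun i => (p.1 i : ℚ) - (p.2 i : ℚ)) (f j)) →
      AlgebraicChart n 0 h 1 B A) ∧
    -- the factor `B ^ ⌊N / |S|⌋` is needed, already for linear maps
    (∀ (S : Finset ℚ) (q B : ℕ), (-1 : ℚ) ∉ S →
      ∃ A : Finset ((Fin (#S * q) → ℤ) × (Fin (#S * q) → ℤ)),
        AlgebraicChart (#S * q) 0 1 1 B A ∧ #A = B ^ (#S * q) ∧
        ∀ r ∈ S, #(projn r A) * B ^ q ≤ #A) := by
  refine ⟨?_, asym, power, kakeya, ?_, fun n k B A hB hA => graph A hB hA,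
    fun n h B A hh hB hA => polyGraph hh A hB hA, fun S q B hS => sharp S hS q B⟩
  · intro n N M m h k B S A hh hk hB hS hS1 hA
    exact ⟨covered_gm hh hk hB S hS hS1 A hA, covered_max hh hk hB S hS hS1 A hA⟩
  · intro n S A
    exact ⟨exists_sep S A, fun w hw r hr => card_proj_flat w S A hw r hr⟩

end Pool.Agent.Results.MP_169869_co.AlgebraicGraphsH27
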