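import Pool.Agent.V7H23.AK.Alph

/-!
# The arithmetic Kakeya conjecture for sets with few differences in every coordinate

The main result. Let `W` be a vector space over `ℚ` and `A` ANY finite nonempty set of pairs `(x, y)` of
vectors `x, y ∈ W ^ n` such that `x_i - y_i` takes at most `M` values on `A` for each coordinate `i`. Then
for EVERY set `S` of at least `(r + 1) M ^ (2 r)` slopes
`|{x - y}| ^ (r ^ 2) ≤ max_t |π_t(A)| ^ ((r + 1) ^ 2)`, `t ∈ S ∪ {∞}`: the exponent is `(1 + 1 / r) ^ 2`,
for all `n` and with no condition for the size of `A`. The same is proved for sets `A` of pairs in any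
vector space over `ℚ`, in particular for `A ⊂ ℤ × ℤ`, if the differences are sums `∑ e_i g_i` with digits
`e_i` from alphabets `E_i ⊂ [-q, q]` of at most `M` integers (different for different `i`) and elements
`g_i` without relations with coefficients bounded in terms of `M`, `S`, `r` and `q`.

The inequality behind it. Let `A` be a finite nonempty set of pairs `(x, y)` of elements of a vector
space over `ℚ` and `D` the set of the differences `x - y`. Let `h_0, …, h_r` be rational numbers such that
no element has more than `K` representations `∑_j (h_j - h_(j+1)) d_j`, `d_j ∈ D`. Then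
`|A| ^ r ≤ K ∏_j |π_j(A)|` where `π_j = y + h_j (x - y)`, the projection of the slope `1 / h_j - 1` (for
`h_j = 0` of the slope `∞`) up to a factor. Hence for every `q` and `r` there is a set `S` of only `r`
slopes such that `|A| ^ r ≤ ∏_t |π_t(A)|`, `t ∈ S ∪ {∞}`, for all finite sets `A` with
`D ⊆ {e_1 g_1 + … + e_n g_n : 0 ≤ e_i < q}` (for instance `D ⊆ {0, 1, …, q - 1} ^ n ⊂ ℤ ^ n`): the
exponent for these sets is at most `1 + 1 / r`.

Proof. Choose one pair in `A` for each difference. For a tuple `h_0, …, h_r` of parameters consider the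
sequences `a_0, …, a_(r+1)` in `A` with `π_j(a_j) = π_j(a_(j+1))` for `j = 0, …, r`, and the random
sequence for which `a_0` is uniform and `a_(j+1)` is uniform in the class of `a_j`. Its entropy is at least
`(r + 2) log |A| - ∑_j log |π_j(A)|`. By telescoping
`π_0(a_0) - π_r(a_(r+1)) = ∑_j (h_(j-1) - h_j) (x - y)(a_j)` (`1 ≤ j ≤ r`), and the sequence is
determined by `a_0`, `a_(r+1)` and the differences `d_j = (x - y)(a_j)`. Hence the entropy is at most
`2 log |A|` plus the conditional entropy of the differences given this sum. If the sum has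
at most `K` representations this is at most `log K`. In the main result the sum determines
the coordinates of all `d_j` outside of the set `B` of the bad coordinates, those for which the sum in the
coordinate is not injective; each `d_j` is uniform in `D`, so the conditional entropy is at most
`r` times the entropy of the coordinates in `B` of a random `d ∈ D` given the other coordinates.
Each coordinate is bad for at most the share `M ^ (2 r) / |S|` of the tuples `h`, and by Shearer's
inequality the average over the tuples is at most `r M ^ (2 r) / |S|` times `log |D|`.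
-/

set_option autoImplicit false

namespace Pool.Agent.Results.MP_169869_co.BoundedWreathProductsH23

open Pool.Agent.V7H23.AK

theorem result :
    (∀ (W : Type) [AddCommGroup W] [Module ℚ W] [DecidableEq W] (M r : ℕ) (S : Finset ℚ),
      (r + 1) * M ^ (2 * r) ≤ S.card → ∀ (n : ℕ) (A : Finset ((Fin n → W) × (Fin n → W))),
        A.Nonempty → (∀ i, (A.image fun a => a.1 i - a.2 i).card ≤ M) →
        (A.image fun a => a.1 - a.2).card ^ (r ^ 2) ≤ (max (A.image fun a => a.2).card
          (S.sup fun t => (A.image fun a => a.1 + t • a.2).card)) ^ ((r + 1) ^ 2)) ∧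
    (∀ (M r : ℕ) (S : Finset ℚ), (r + 1) * M ^ (2 * r) ≤ S.card → ∀ q : ℕ, ∃ L : ℕ,
      ∀ (V : Type) [AddCommGroup V] [Module ℚ V] [DecidableEq V] (n : ℕ) (g : Fin n → V),
        (∀ c : Fin n → ℤ, (∀ i, |c i| ≤ (L : ℤ)) → ∑ i, (c i : ℚ) • g i = 0 → c = 0) →
        ∀ E : Fin n → Finset ℤ, (∀ i, (E i).card ≤ M) → (∀ i, ∀ x ∈ E i, |x| ≤ (q : ℤ)) →
          ∀ A : Finset (V × V), A.Nonempty →
            (∀ a ∈ A, ∃ e : Fin n → ℤ, (∀ i, e i ∈ E i) ∧ a.1 - a.2 = ∑ i, (e i : ℚ) • g i) →
            (A.image fun a => a.1 - a.2).card ^ (r ^ 2) ≤ (max (A.image fun a => a.2).card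
              (S.sup fun t => (A.image fun a => a.1 + t • a.2).card)) ^ ((r + 1) ^ 2)) ∧
    (∀ (V : Type) [AddCommGroup V] [Module ℚ V] [DecidableEq V] (r : ℕ) (h : Fin (r + 1) → ℚ)
      (A : Finset (V × V)), A.Nonempty → ∀ K : ℕ,
        (∀ w : V, ((Fintype.piFinset fun _ : Fin r => A.image fun a => a.1 - a.2).filter fun d =>
          ∑ j, (h j.castSucc - h j.succ) • d j = w).card ≤ K) →
        A.card ^ r ≤ K * ∏ j, (A.image fun a => a.2 + h j • (a.1 - a.2)).card) ∧
    ∀ q r : ℕ, 1 ≤ q → ∃ S : Finset ℚ, (-1 : ℚ) ∉ S ∧ S.card = r ∧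
      ∃ L : ℕ, ∀ (V : Type) [AddCommGroup V] [Module ℚ V] [DecidableEq V] (n : ℕ) (g : Fin n → V),
        (∀ c : Fin n → ℤ, (∀ i, |c i| ≤ (L : ℤ)) → ∑ i, (c i : ℚ) • g i = 0 → c = 0) →
        ∀ A : Finset (V × V), A.Nonempty →
          (∀ a ∈ A, ∃ e : Fin n → ℕ, (∀ i, e i < q) ∧ a.1 - a.2 = ∑ i, (e i : ℚ) • g i) →
          A.card ^ r ≤ (A.image fun a => a.2).card *
            ∏ t ∈ S, (A.image fun a => a.1 + t • a.2).card :=
  ⟨fun W _ _ _ => coordinate_bound, alphabets, fun V _ _ _ => path_bound, digit_sets⟩

end Pool.Agent.Results.MP_169869_co.BoundedWreathProductsH23
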