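import Pool.Agent.V7H31.GS.Main
import Pool.Agent.V7H31.GS.Sub
import Pool.Agent.V7H31.GS.Ran2Q

/-! # Lower bounds for the exponents of all, random and special sets of slopes

The exponent `κ` FAILS for a finite set `S` of slopes if for every constant `C` there is a finite set
`A ⊂ ℤ × ℤ` with `C * max (|π_∞(A)|, max_{r ∈ S} |π_r(A)|) ^ κ < |π₋₁(A)|`. The arithmetic Kakeya
conjecture says that for every `κ > 1` there is a finite set of slopes `≠ -1` for which `κ` does not fail.

0. The number `κ / (κ - 1)` is SUBADDITIVE: if `κ_j` fails for `S_j`, every `κ` with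
   `κ / (κ - 1) > ∑ κ_j / (κ_j - 1)` fails for the union. In other words, if a set of slopes with the
   exponent `1 + ε` is divided into `n` classes, one of the classes has all exponents above
   `1 + n ε / (1 - (n - 1) ε)`.
1. EVERY set of `k` slopes: all exponents below `1 + log log k / (20 k)` fail. (The starting files have
   `1 + 1 / k`.)
2. Let `κ < 2`. Every sufficiently large finite set of slopes contains `m` slopes which are of no use for the
   exponent `κ` (`2` is the exponent of a single slope).
3. RANDOM slopes: let `X` be any set of slopes which is not very sparse (`log H ≤ (log |X|) ^ B` for the largest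
   height `H`), for example all integers up to `H`, all rational numbers of height `H`, the primes or the squares
   up to `H`. For all but a proportion `2 ^ (-k)` of the `k`-tuples in `X` all exponents below
   `1 + 1 / (20 B √k)` fail, whatever the size of `X` is.
4. If the numbers `1 / (r + 1)` lie in `n` geometric progressions (the special direction `-1` is at infinity in
   this coordinate; for example `r = 2 ^ i - 1`), all exponents below `1 + 1 / (5 n)` fail, however large the set
   of slopes is.

Proofs. In the coordinates `d = x - y`, `w = 1 / (r + 1)` one looks for sets of pairs `(d, y)` with distinct `d` such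
that `y + w d` takes few values for the given `w`. The product of such sets for `T₁` and `T₂`, with suitable
multiplicities, gives 0. For a geometric progression `w = a + c q ^ i` take `d = ∑ u_l q ^ l` with digits
`u_l ∈ {0, 1}` and the reversed number `y = - a d - c ∑ u_l q ^ (n - 1 - l)`: in `y + w d` the digits occur only in the
combinations `u_l - u_{n - 1 - i - l}`. For slopes without polynomial relations of small height and degree: the
digit sums of the start file `R470.AK`, and a greedy choice in a finite set (`V7H10.AK`). For all slopes of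
height at most `H`: `y = d ^ 2` modulo the product of the primes up to a power of `log H` (Green-Ruzsa). For 3 the
last two constructions are combined: if `X` has less than `exp exp (c √k)` elements the last one, otherwise
blocks of `√k` slopes without relations. -/

set_option autoImplicit false

open Finset

namespace Pool.Agent.Results.MP_169869_co.SlopeLowerBoundsH31

/-- the projection `π_r(A) = {x + r y : (x, y) ∈ A}` -/
def proj (r : ℚ) (A : Finset (ℤ × ℤ)) : Finset ℚ :=
  A.image (fun p : ℤ × ℤ => (p.1 : ℚ) + r * (p.2 : ℚ))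

/-- the projection `π_∞(A) = {y : (x, y) ∈ A}` -/
def projInf (A : Finset (ℤ × ℤ)) : Finset ℚ := A.image (fun p : ℤ × ℤ => (p.2 : ℚ))

/-- the largest size of a projection of `A` with slope `∞` or in `S` -/
def big (S : Finset ℚ) (A : Finset (ℤ × ℤ)) : ℕ :=
  max (projInf A).card (S.sup fun r => (proj r A).card)

/-- The exponent `κ` fails for the slopes `S` and `∞`, up to every constant. -/
def Fails (S : Finset ℚ) (κ : ℝ) : Prop :=
  ∀ C : ℝ, ∃ A : Finset (ℤ × ℤ), C * (big S A : ℝ) ^ κ < (proj (-1) A).card

open Classical in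
theorem result :
    -- 0. subadditivity
    (∀ (n : ℕ) (S : Fin n → Finset ℚ) (κ : Fin n → ℝ) (κ₀ : ℝ),
      (∀ j, (-1 : ℚ) ∉ S j ∧ 1 < κ j ∧ Fails (S j) (κ j)) → 1 < κ₀ →
      ∑ j, κ j / (κ j - 1) < κ₀ / (κ₀ - 1) → Fails (univ.biUnion S) κ₀) ∧
    -- 1. all sets of slopes
    (∀ (S : Finset ℚ) (κ : ℝ), (-1 : ℚ) ∉ S →
      κ < 1 + Real.log (Real.log S.card) / (20 * S.card) → Fails S κ) ∧
    -- 2. large sets contain useless sets
    (∀ (m : ℕ) (κ : ℝ), κ < 2 → ∃ K : ℕ, ∀ R : Finset ℚ, (-1 : ℚ) ∉ R → K ≤ R.card →
      ∃ S ⊆ R, S.card = m ∧ Fails S κ) ∧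
    -- 3. random slopes
    (∀ (B : ℕ) (X : Finset ℚ) (H : ℕ), 1 ≤ B → (-1 : ℚ) ∉ X → (∀ r ∈ X, |r.num| ≤ H ∧ r.den ≤ H) →
      H + 1 ≤ 2 ^ (Nat.log 2 X.card + 1) ^ B → ∀ k : ℕ, 1 ≤ k →
      ((Fintype.piFinset fun _ : Fin k => X).filter fun s : Fin k → ℚ =>
        ¬ ∀ κ : ℝ, κ < 1 + 1 / (20 * B * Real.sqrt k) → Fails (univ.image s) κ).card * 2 ^ k ≤ X.card ^ k) ∧
    -- 4. geometric progressions
    (∀ (n : ℕ) (a c q : Fin n → ℚ) (S : Finset ℚ) (κ : ℝ), 1 ≤ n → (-1 : ℚ) ∉ S →
      (∀ r ∈ S, ∃ (j : Fin n) (i : ℤ), 1 / (r + 1) = a j + c j * q j ^ i) →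
      κ < 1 + 1 / (5 * n) → Fails S κ) := by
  refine ⟨?_, ?_, ?_, ?_, ?_⟩
  · intro n S κ κ₀ h h0 hsum
    exact Pool.Agent.V7H31.GS.subadditive n S (fun j => (h j).1) κ (fun j => (h j).2.1) (fun j => (h j).2.2) κ₀
      h0 hsum
  · intro S κ hS hκ
    exact fun C => Pool.Agent.V7H31.GS.universal S hS κ hκ C
  · intro m κ hκ
    exact Pool.Agent.V7H31.GS.ramsey m κ hκ
  · intro B X H hB hX hXH hH k hk
    exact Pool.Agent.V7H31.GS.random B hB X hX H hXH hH k hk
  · intro n a c q S κ hn hS h hκ
    exact fun C => Pool.Agent.V7H31.GS.progressions n hn a c q S hS h κ hκ C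

end Pool.Agent.Results.MP_169869_co.SlopeLowerBoundsH31
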