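import Pool.Agent.V7H74.AKInt3

set_option autoImplicit false

/-!
# MP_169869: an inequality for all finite sets, with the dimensions of the nodes at one scale

Let `S` be a set of `K` rational slopes and `p_0, p_1, ...` primes modulo which the slopes are different,
for example `S = {0, ..., K - 1}` and any primes `≥ K`; all primes may be equal. Let
`Q_i = p_0 ⋯ p_{i-1}`. The residue classes modulo `Q_0, Q_1, ...` of `ℤ × ℤ` which meet the finite set
`A` are the nodes of a tree. The children of the node of `a` of level `i` are the classes modulo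
`Q_{i+1}` in it; they are points of the affine plane over the field with `p_i` elements.

To each node we give a number `d`, its dimension, with `1 ≤ d ≤ 2`. If `d < 2`, then (with a small
`κ > 0`) one of the following has to be true for each point `a` of the node; for `d = 2` there is no
condition.

* The node has at most `K ^ d` children.
* The children are on an algebraic curve of degree at most `K ^ (d - 1)`.
* For all but at most `κ K` of the slopes `r` there are at most `K ^ (d - 1)` children on the line of
  slope `r` through the child of `a`.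

For the uniform distribution on `A` let `l_i(a)` be the logarithm of the number of the points of `A` in
the node of `a` of level `i` divided by the number of those in its child, so that
`∑_i l_i(a) = log |A|`; the mean of the sum of the `l_i(a)` over a set of nodes is the entropy carried
by them. Let `D` be the harmonic mean of the dimensions with the weights `l_i(a)`, that is,
`log |A| / D` is the mean over `a ∈ A` of `∑_i l_i(a) / d_i(a)`. So `1 ≤ D ≤ 2`.

THEOREM. For every `ε > 0` there are `κ > 0` and `K₀` such that for EVERY set `S` of `K ≥ K₀` slopes, all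
such primes, ALL finite `A ⊂ ℤ × ℤ` and all dimensions of its nodes

  `|π_{-1}(A)| ≤ |A| ≤ (max_{r ∈ S} |π_r(A)|) ^ (D + ε)`.

The slopes depend on `ε` only. There is no restriction for the number of the children of a node
(for large primes), nor for the height or the density of `A`, and the curves depend arbitrarily on the
node. For `D = 2` (no condition) the inequality is trivial. If the nodes of dimension `1` carry all
but a small proportion of the entropy, then it is the inequality of the conjecture. The exponent is smaller
than the published `1.6751...` for all sets as soon as `D < 1.6751`, for example if the nodes have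
at most `K ^ 1.67` children, or if the nodes of dimension `1` carry one fifth of the entropy. In a
counterexample to the conjecture for `S` and an exponent `1 + η` (`x - y` injective on `A`) with
`0 < η < 1` the nodes which do not have the dimension `1` thus carry at least the proportion
`2 η / (1 + η)` (up to `ε`) of the entropy, for each such sequence of primes.

Proof. Chain rule for the entropy of the uniform distribution on `A` along the tree and an inequality
for one node. Let `Z` be a random child with probabilities `γ(z)` and entropy `H`. It is proved that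
the mean over `r` of the conditional entropies `H(Z | π_r(Z))` is at most `(1 - 1 / d + ε) H`. This is sharp
for each `d`. The children with `γ(z) ≥ 1 / T`, `T = K ^ (1 - κ)`, contribute at
most `γ(z) (1 / γ(z) - 1) ≤ T γ(z) log (1 / γ(z))`, since two children are on a common line for at most
one slope, and each other child is on at most `T` lines through them. For the children with
`γ(z) = K ^ (-x) < 1 / T` the mean over the slopes is at most `max (x - 1, 0) log K + log 2` by the
concavity of the logarithm, and for a slope with at most `K ^ (d - 1)` children on each line the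
contribution can be truncated at `(d - 1) log K + log B` (the sum of the excesses over a line is small).
As `min (x - 1, d - 1) ≤ (1 - 1 / d) x` for all `x` and `log (1 / γ(z)) ≥ log T`, the loss is
multiplicative; an additive loss at each node would be of no use for sets of small density. For `d = 2`
the bound `H / 2` follows from the submodularity of the entropy for two slopes.
-/

open Finset

namespace Pool.Agent.Results.MP_169869_co.TameNodesH74

/-- the projection `π_r(A) = {x + r y : (x, y) ∈ A}` -/
def proj (r : ℚ) (A : Finset (ℤ × ℤ)) : Finset ℚ :=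
  A.image (fun p : ℤ × ℤ => (p.1 : ℚ) + r * (p.2 : ℚ))

/-- the modulus `Q_i = p_0 p_1 ⋯ p_{i-1}` -/
def modulus (p : ℕ → ℕ) (i : ℕ) : ℕ := ∏ j ∈ range i, p j

/-- the points of `A` which are congruent to `a` modulo `q` -/
def cls (q : ℕ) (A : Finset (ℤ × ℤ)) (a : ℤ × ℤ) : Finset (ℤ × ℤ) :=
  A.filter fun b => (q : ℤ) ∣ b.1 - a.1 ∧ (q : ℤ) ∣ b.2 - a.2

/-- the number of the residue classes modulo `q` which meet `B` -/
def classes (q : ℕ) (B : Finset (ℤ × ℤ)) : ℕ :=
  (B.image fun b => ((b.1 : ZMod q), (b.2 : ZMod q))).card

/-- The number of the residue classes modulo `q'` in the residue class of `a` modulo `q` which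
meet `A` and are on the line of slope `r` through `a` modulo `q'`. -/
def mult (q q' : ℕ) (r : ℚ) (A : Finset (ℤ × ℤ)) (a : ℤ × ℤ) : ℕ :=
  classes q' ((cls q A a).filter fun b =>
    (q' : ℤ) ∣ (r.den : ℤ) * (b.1 - a.1) + r.num * (b.2 - a.2))

/-- The node of `a` of level `i` has the dimension `d` at `a`: there are at most `K ^ d` children, or for
all but at most `κ K` of the slopes there are at most `K ^ (d - 1)` children on the line through the child
of `a`, or the children are on an algebraic curve of degree at most `K ^ (d - 1)` over the field with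
`p i` elements (`K = |S|`). -/
def HasDim (κ d : ℝ) (S : Finset ℚ) (p : ℕ → ℕ) (i : ℕ) (A : Finset (ℤ × ℤ))
    (a : ℤ × ℤ) : Prop :=
  (classes (modulus p (i + 1)) (cls (modulus p i) A a) : ℝ) ≤ (S.card : ℝ) ^ d ∨
  ((S.filter fun r => (S.card : ℝ) ^ (d - 1) <
    mult (modulus p i) (modulus p (i + 1)) r A a).card : ℝ) ≤ κ * S.card ∨
  ∃ P : MvPolynomial (Fin 2) (ZMod (p i)), P ≠ 0 ∧
    (P.totalDegree : ℝ) ≤ (S.card : ℝ) ^ (d - 1) ∧
    ∀ b ∈ cls (modulus p i) A a, MvPolynomial.eval
      ![(((b.1 - a.1) / (modulus p i : ℤ) : ℤ) : ZMod (p i)),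
        (((b.2 - a.2) / (modulus p i : ℤ) : ℤ) : ZMod (p i))] P = 0

/-- The mean over `a ∈ A` of the sum over the levels `i < n` of `l_i(a)` divided by the dimension of the
node of `a` of level `i`. -/
noncomputable def dimSum (p : ℕ → ℕ) (n : ℕ) (A : Finset (ℤ × ℤ)) (d : ℕ → ℤ × ℤ → ℝ) : ℝ :=
  (∑ a ∈ A, ∑ i ∈ range n, Real.log ((cls (modulus p i) A a).card /
    (cls (modulus p (i + 1)) A a).card) / d i a) / A.card

/-- **The arithmetic Kakeya inequality with the harmonic mean of the dimensions of the nodes.** -/
theorem result (ε : ℝ) (hε : 0 < ε) :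
    ∃ κ : ℝ, 0 < κ ∧ ∃ K₀ : ℕ, ∀ S : Finset ℚ, K₀ ≤ S.card →
      ∀ p : ℕ → ℕ, (∀ i, (p i).Prime) →
      (∀ i, ∀ r ∈ S, ∀ r' ∈ S, r ≠ r' → ¬ (p i : ℤ) ∣ (r.den : ℤ) * r'.num - r'.den * r.num) →
      ∀ (A : Finset (ℤ × ℤ)) (n : ℕ),
      (∀ a ∈ A, ∀ b ∈ A, (modulus p n : ℤ) ∣ b.1 - a.1 → (modulus p n : ℤ) ∣ b.2 - a.2 → b = a) →
      ∀ d : ℕ → ℤ × ℤ → ℝ, (∀ i < n, ∀ a ∈ A, 1 ≤ d i a ∧ d i a ≤ 2) →
      (∀ i < n, ∀ a ∈ A, ∀ b ∈ cls (modulus p i) A a, d i b = d i a) →
      (∀ i < n, ∀ a ∈ A, d i a = 2 ∨ HasDim κ (d i a) S p i A a) →
      ∀ m : ℝ, 1 / 2 ≤ m → m * Real.log A.card ≤ dimSum p n A d →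
        ((proj (-1) A).card : ℝ) ≤ A.card ∧
        (A.card : ℝ) ≤ ((S.sup fun r => (proj r A).card : ℕ) : ℝ) ^ (1 / m + ε) := by
  obtain ⟨κ, hκ, K₀, h⟩ := Pool.Agent.V7H74.AK.sharp_pow ε hε
  refine ⟨κ, hκ, K₀, fun S hS p hp hdist A n hn d hd12 hdc hdd m hm hmA => ⟨?_, ?_⟩⟩
  · have h1 : (proj (-1) A).card ≤ A.card := card_image_le
    exact_mod_cast h1
  · exact h S hS p hp hdist A n hn d hd12 hdc hdd m hm hmA

end Pool.Agent.Results.MP_169869_co.TameNodesH74
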